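import Pool.Agent.W710.DP.Stm2

/-! REAL: realisation of a map by a good word -/

set_option autoImplicit false

namespace Pool.Agent.W481.DP

open Pool.Agent.W710.DP

/-- monotonicity of `Realises` in the domain, and dependence on the map on the domain only -/
theorem realises_mono {w : List Letter} {g g' : ℂ → ℂ} {D D' : Set ℂ}
    (h : Realises w g D) (hD : D' ⊆ D) (hg : ∀ z ∈ D', g z = g' z) : Realises w g' D' := by
  obtain ⟨c, hc, H⟩ := h
  refine ⟨c, hc, fun α β x s x₁ s₁ hx => ?_⟩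
  obtain ⟨X, S, A, X₁, S₁, hh⟩ := H α β x s x₁ s₁
    (fun t ht => ⟨(hx t ht).1, (hx t ht).2.1, (hx t ht).2.2.1, hD (hx t ht).2.2.2⟩)
  refine ⟨X, S, A, X₁, S₁, fun t ht => ?_⟩
  obtain ⟨h1, h2, h3, h4, h5, h6, h7⟩ := hh t ht
  exact ⟨h1, h2, h3, h4, h5, by rw [h6]; exact hg _ (hx t ht).2.2.2, h7⟩

/-- the empty word realises the identity -/
theorem realises_nil (D : Set ℂ) : Realises [] (fun z => z) D := by
  refine ⟨1, one_pos, fun α β x s x₁ s₁ hx => ⟨x, s, fun _ => 0, x₁, s₁, fun t ht => ?_⟩⟩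
  obtain ⟨h1, h2, h3, _⟩ := hx t ht
  refine ⟨h1, h2, h3, ?_, ⟨rfl, rfl, rfl⟩, rfl, fun _ => ⟨rfl, rfl, rfl⟩⟩
  rw [sub_self]
  exact hasDerivAt_const t 0

/-- realisation of a composite -/
theorem realises_list (h3 : S_comp) (T e ρ : ℝ) (L : List (Equiv.Perm ℂ))
    (hL : ∀ φ ∈ L, ∃ l : Letter, Good T e l ∧ Realises [l] (⇑φ) (Dc ρ)) :
    ∃ w : List Letter, w.length = L.length ∧ GoodW T e w ∧
      Realises w (compL L) {z | Stay ρ L z} := by
  induction L with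
  | nil =>
      refine ⟨[], rfl, fun l hl => by simp at hl, ?_⟩
      exact realises_mono (realises_nil Set.univ) (Set.subset_univ _) (fun z _ => rfl)
  | cons φ L ih =>
      obtain ⟨l, hl1, hl2⟩ := hL φ (by simp)
      obtain ⟨w, hw1, hw2, hw3⟩ := ih (fun ψ hψ => hL ψ (by simp [hψ]))
      refine ⟨l :: w, by simp [hw1], ?_, ?_⟩
      · intro l' hl'
        rcases List.mem_cons.mp hl' with rfl | h
        · exact hl1
        · exact hw2 l' h
      · have := h3 [l] w (⇑φ) (compL L) (Dc ρ) {z | Stay ρ L z} hl2 hw3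
        exact this

/-- REAL -/
theorem t_real (h1 : S_steps) (h2 : S_letter) (h3 : S_comp) : S_real := by
  intro a ha ha0 R hR
  obtain ⟨r0, hr0, ρ, hρ, hst⟩ := h1 a ha ha0 R hR
  have hpos : 0 < Real.pi * r0 ^ 2 / 4 := by positivity
  refine ⟨ρ + 3, min 1 (Real.pi * r0 ^ 2 / 4), lt_min one_pos hpos, fun T hT e he he0 => ?_⟩
  obtain ⟨δ, hδ, hlet⟩ := h2 r0 hr0 ρ hρ T e he (he0.trans (min_le_right _ _))
    (he0.trans (min_le_left _ _)) hT
  obtain ⟨L, hLne, hL, hcomp⟩ := hst δ hδ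
  obtain ⟨w, hw1, hw2, hw3⟩ := realises_list h3 T e ρ L
    (fun φ hφ => hlet φ (hL φ hφ).1 (hL φ hφ).2.1 (hL φ hφ).2.2)
  refine ⟨w, ?_, hw2, ?_⟩
  · intro h
    rw [h] at hw1
    exact hLne (List.length_eq_zero_iff.mp hw1.symm)
  · exact realises_mono hw3 (fun z hz => (hcomp z hz).1) (fun z hz => (hcomp z hz).2)

end Pool.Agent.W481.DP
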